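import Mathlib

/-!
# Preliminaries for transitive realizations: coding, Schroeder-Bernstein
-/

set_option autoImplicit false
set_option linter.unusedSectionVars false

open Set MeasureTheory Topology

namespace Pool.Agent.R604.RZ

/-- eventual equality -/
def E0 (a b : ℕ → Bool) : Prop := ∃ N, ∀ n, N ≤ n → a n = b n

theorem E0.refl (a : ℕ → Bool) : E0 a a := ⟨0, fun _ _ => rfl⟩

theorem E0.symm {a b : ℕ → Bool} (h : E0 a b) : E0 b a := by
  obtain ⟨N, hN⟩ := h
  exact ⟨N, fun n hn => (hN n hn).symm⟩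

theorem E0.trans {a b c : ℕ → Bool} (h : E0 a b) (h' : E0 b c) : E0 a c := by
  obtain ⟨N, hN⟩ := h
  obtain ⟨N', hN'⟩ := h'
  exact ⟨max N N', fun n hn => (hN n (le_trans (le_max_left _ _) hn)).trans
    (hN' n (le_trans (le_max_right _ _) hn))⟩

/-- the coding of `2^ℕ × ℕ` in `2^ℕ` -/
def cod (p : (ℕ → Bool) × ℕ) : ℕ → Bool := fun m =>
  if m % 3 = 0 then p.1 (m / 3) else if m % 3 = 1 then decide (m / 3 < p.2) else false

theorem cod_meas : Measurable cod := by
  refine measurable_pi_iff.2 fun m => ?_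
  unfold cod
  by_cases h0 : m % 3 = 0
  · simp only [if_pos h0]
    exact (measurable_pi_apply _).comp measurable_fst
  · by_cases h1 : m % 3 = 1
    · simp only [if_neg h0, if_pos h1]
      exact (measurable_of_countable (fun n : ℕ => decide (m / 3 < n))).comp measurable_snd
    · simp only [if_neg h0, if_neg h1]
      exact measurable_const

theorem cod_zero (p : (ℕ → Bool) × ℕ) (k : ℕ) : cod p (3 * k) = p.1 k := by
  rw [cod, if_pos (by omega), show 3 * k / 3 = k by omega]

theorem cod_one (p : (ℕ → Bool) × ℕ) (k : ℕ) : cod p (3 * k + 1) = decide (k < p.2) := by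
  rw [cod, if_neg (by omega), if_pos (by omega), show (3 * k + 1) / 3 = k by omega]

theorem cod_two (p : (ℕ → Bool) × ℕ) (k : ℕ) : cod p (3 * k + 2) = false := by
  rw [cod, if_neg (by omega), if_neg (by omega)]

theorem cod_inj : Function.Injective cod := by
  intro p q h
  refine Prod.ext (funext fun k => ?_) ?_
  · rw [← cod_zero, ← cod_zero, h]
  · have h1 : ∀ k, k < p.2 ↔ k < q.2 := by
      intro k
      have := congrFun h (3 * k + 1)
      rw [cod_one, cod_one] at this
      exact decide_eq_decide.1 this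
    have h2 := h1 p.2
    have h3 := h1 q.2
    omega

theorem cod_E0 (p q : (ℕ → Bool) × ℕ) : E0 (cod p) (cod q) ↔ E0 p.1 q.1 := by
  constructor
  · rintro ⟨N, hN⟩
    refine ⟨N, fun n hn => ?_⟩
    rw [← cod_zero, ← cod_zero]
    exact hN _ (by omega)
  · rintro ⟨N, hN⟩
    refine ⟨3 * (N + p.2 + q.2 + 1), fun m hm => ?_⟩
    unfold cod
    by_cases h0 : m % 3 = 0
    · rw [if_pos h0, if_pos h0]
      exact hN _ (by omega)
    · by_cases h1 : m % 3 = 1
      · rw [if_neg h0, if_neg h0, if_pos h1, if_pos h1]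
        have h2 : ¬ m / 3 < p.2 := by omega
        have h3 : ¬ m / 3 < q.2 := by omega
        simp [h2, h3]
      · rw [if_neg h0, if_neg h0, if_neg h1, if_neg h1]

theorem cod_not (p : (ℕ → Bool) × ℕ) : ¬ E0 (fun _ => true) (cod p) := by
  rintro ⟨N, hN⟩
  have h := hN (3 * N + 2) (by omega)
  rw [cod_two] at h
  exact absurd h (by simp)

/-- a bijective measurable embedding is a measurable equivalence -/
theorem equiv_of_emb {P Q : Type} [MeasurableSpace P] [MeasurableSpace Q] {h : P → Q}
    (he : MeasurableEmbedding h) (hb : Function.Bijective h) : ∃ e : P ≃ᵐ Q, ∀ p, e p = h p := by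
  refine ⟨{ toEquiv := Equiv.ofBijective h hb
            measurable_toFun := he.measurable
            measurable_invFun := ?_ }, fun p => rfl⟩
  intro S hS
  have : (Equiv.ofBijective h hb).symm ⁻¹' S = h '' S := by
    ext y
    constructor
    · intro hy
      exact ⟨_, hy, (Equiv.ofBijective h hb).apply_symm_apply y⟩
    · rintro ⟨p, hp, rfl⟩
      show (Equiv.ofBijective h hb).symm ((Equiv.ofBijective h hb) p) ∈ S
      rw [(Equiv.ofBijective h hb).symm_apply_apply]
      exact hp
  rw [this]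
  exact he.measurableSet_image.2 hS

/-- a measurable bijection is a measurable equivalence -/
theorem equiv_of_bij {P Q : Type} [MeasurableSpace P] [StandardBorelSpace P] [MeasurableSpace Q]
    [MeasurableSpace.CountablySeparated Q] {h : P → Q} (hm : Measurable h)
    (hb : Function.Bijective h) : ∃ e : P ≃ᵐ Q, ∀ p, e p = h p :=
  equiv_of_emb (hm.measurableEmbedding hb.1) hb

/-- Schroeder-Bernstein with pieces -/
theorem sb {P Q : Type} [MeasurableSpace P] [StandardBorelSpace P] [MeasurableSpace Q]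
    [StandardBorelSpace Q] {f : P → Q} {g : Q → P} (hf : Measurable f)
    (hfi : Function.Injective f) (hg : Measurable g) (hgi : Function.Injective g) :
    ∃ h : P ≃ᵐ Q, ∀ p, h p = f p ∨ g (h p) = p := by
  classical
  have hfe := hf.measurableEmbedding hfi
  have hge := hg.measurableEmbedding hgi
  let C : ℕ → Set P := fun n => Nat.rec (range g)ᶜ (fun _ S => g '' (f '' S)) n
  have C0 : C 0 = (range g)ᶜ := rfl
  have CS : ∀ n, C (n + 1) = g '' (f '' C n) := fun n => rfl
  have Cm : ∀ n, MeasurableSet (C n) := by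
    intro n
    induction n with
    | zero => exact hge.measurableSet_range.compl
    | succ n ih =>
      rw [CS]
      exact hge.measurableSet_image.2 (hfe.measurableSet_image.2 ih)
  set A : Set P := ⋃ n, C n with hA
  have Am : MeasurableSet A := MeasurableSet.iUnion Cm
  have hr : ∀ p, p ∉ A → ∃ q, g q = p := by
    intro p hp
    by_contra h
    exact hp (mem_iUnion.2 ⟨0, fun hq => h hq⟩)
  let h : P → Q := fun p => if hp : p ∈ A then f p else (hr p hp).choose
  have h1 : ∀ p ∈ A, h p = f p := fun p hp => dif_pos hp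
  have h2 : ∀ p, p ∉ A → g (h p) = p := by
    intro p hp
    have : h p = (hr p hp).choose := dif_neg hp
    rw [this]
    exact (hr p hp).choose_spec
  have hgf : ∀ p ∈ A, g (f p) ∈ A := by
    intro p hp
    obtain ⟨n, hn⟩ := mem_iUnion.1 hp
    exact mem_iUnion.2 ⟨n + 1, ⟨f p, ⟨p, hn, rfl⟩, rfl⟩⟩
  have hinj : Function.Injective h := by
    intro p q hpq
    by_cases hp : p ∈ A
    · by_cases hq : q ∈ A
      · rw [h1 p hp, h1 q hq] at hpq
        exact hfi hpq
      · exfalso
        apply hq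
        rw [← h2 q hq, ← hpq, h1 p hp]
        exact hgf p hp
    · by_cases hq : q ∈ A
      · exfalso
        apply hp
        rw [← h2 p hp, hpq, h1 q hq]
        exact hgf q hq
      · rw [← h2 p hp, ← h2 q hq, hpq]
  have hsurj : Function.Surjective h := by
    intro y
    by_cases hy : g y ∈ A
    · obtain ⟨n, hn⟩ := mem_iUnion.1 hy
      cases n with
      | zero => exact absurd ⟨y, rfl⟩ hn
      | succ n =>
        obtain ⟨_, ⟨p, hp, rfl⟩, he⟩ := hn
        have : f p = y := hgi he
        exact ⟨p, by rw [h1 p (mem_iUnion.2 ⟨n, hp⟩), this]⟩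
    · exact ⟨g y, hgi (h2 _ hy)⟩
  have hm : Measurable h := by
    intro S hS
    have : h ⁻¹' S = (A ∩ f ⁻¹' S) ∪ (Aᶜ ∩ g '' S) := by
      ext p
      by_cases hp : p ∈ A
      · constructor
        · intro h3
          refine Or.inl ⟨hp, ?_⟩
          have h4 : h p ∈ S := h3
          rw [h1 p hp] at h4
          exact h4
        · rintro (⟨-, h3⟩ | ⟨h3, -⟩)
          · show h p ∈ S
            rw [h1 p hp]
            exact h3
          · exact absurd hp h3
      · constructor
        · intro h3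
          exact Or.inr ⟨hp, h p, h3, h2 p hp⟩
        · rintro (⟨h3, -⟩ | ⟨-, q, hq, hqp⟩)
          · exact absurd h3 hp
          · show h p ∈ S
            have : h p = q := hgi (by rw [h2 p hp, hqp])
            rw [this]
            exact hq
    rw [this]
    exact (Am.inter (hf hS)).union (Am.compl.inter (hge.measurableSet_image.2 hS))
  obtain ⟨e, he⟩ := equiv_of_bij hm ⟨hinj, hsurj⟩
  refine ⟨e, fun p => ?_⟩
  rw [he]
  by_cases hp : p ∈ A
  · exact Or.inl (h1 p hp)
  · exact Or.inr (h2 p hp)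

/-- The saturation of the range is isomorphic to `E₀ × I`. -/
theorem exists_iso {X : Type} [MeasurableSpace X] [StandardBorelSpace X] (s : ℕ → X → X)
    (hs : ∀ n, Measurable (s n)) (hinv : ∀ n x, s n (s n x) = x) (E : X → X → Prop)
    (hE : Equivalence E) (hsE : ∀ x y, E x y ↔ ∃ n, s n x = y)
    (φ : (ℕ → Bool) × ℕ → X) (hφ : Measurable φ) (hφi : Function.Injective φ)
    (hφE : ∀ p q, E (φ p) (φ q) ↔ E0 p.1 q.1) :
    MeasurableSet {y | ∃ p, E y (φ p)} ∧
    ∃ h : {y // ∃ p, E y (φ p)} ≃ᵐ (ℕ → Bool) × ℕ, ∀ y, E y.1 (φ (h y)) := by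
  classical
  have hφe := hφ.measurableEmbedding hφi
  set R0 : Set X := φ '' {p | p.2 = 0} with hR0
  have hR0m : MeasurableSet R0 :=
    hφe.measurableSet_image.2 (measurable_snd (measurableSet_singleton 0))
  have hex : ∀ y, (∃ p, E y (φ p)) → ∃ n, s n y ∈ R0 := by
    rintro y ⟨p, hp⟩
    have h1 : E y (φ (p.1, 0)) := hE.trans hp ((hφE _ _).2 (E0.refl _))
    obtain ⟨n, hn⟩ := (hsE _ _).1 h1
    exact ⟨n, by rw [hn]; exact ⟨(p.1, 0), rfl, rfl⟩⟩
  have hY : {y | ∃ p, E y (φ p)} = ⋃ n, s n ⁻¹' R0 := by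
    ext y
    constructor
    · intro hy
      exact mem_iUnion.2 (hex y hy)
    · intro hy
      obtain ⟨n, p, -, hp⟩ := mem_iUnion.1 hy
      exact ⟨p, by rw [hp]; exact (hsE _ _).2 ⟨n, rfl⟩⟩
  have hYm : MeasurableSet {y | ∃ p, E y (φ p)} := by
    rw [hY]
    exact MeasurableSet.iUnion fun n => hs n hR0m
  refine ⟨hYm, ?_⟩
  have hstd : StandardBorelSpace {y // ∃ p, E y (φ p)} := hYm.standardBorel
  -- the map psi
  let ν : {y // ∃ p, E y (φ p)} → ℕ := fun y => Nat.find (hex y.1 y.2)
  have hν : Measurable ν := by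
    refine measurable_find _ fun k => ?_
    exact (hs k).comp measurable_subtype_coe hR0m
  have hνs : ∀ y, s (ν y) y.1 ∈ R0 := fun y => Nat.find_spec (hex y.1 y.2)
  have hsm : Measurable (fun y : {y // ∃ p, E y (φ p)} => s (ν y) y.1) := by
    have h1 : Measurable (fun q : ℕ × X => s q.1 q.2) :=
      measurable_from_prod_countable_right fun n => hs n
    exact h1.comp (hν.prodMk measurable_subtype_coe)
  have hch : ∀ y, ∃ a : ℕ → Bool, φ (a, 0) = s (ν y) y.1 := by
    intro y
    obtain ⟨p, hp0, hp⟩ := hνs y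
    refine ⟨p.1, ?_⟩
    rw [← hp]
    congr 1
    exact Prod.ext rfl hp0.symm
  choose a ha using hch
  have ham : Measurable a := by
    intro S hS
    have : a ⁻¹' S = (fun y => s (ν y) y.1) ⁻¹' (φ '' (S ×ˢ {0})) := by
      ext y
      constructor
      · intro hy
        exact ⟨(a y, 0), ⟨hy, rfl⟩, ha y⟩
      · rintro ⟨q, ⟨hq1, hq2⟩, hq⟩
        have h1 : q = (a y, 0) := hφi (by rw [hq, ha])
        show a y ∈ S
        have h2 : q.1 = a y := by rw [h1]
        rw [← h2]
        exact hq1
    rw [this]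
    exact hsm (hφe.measurableSet_image.2 (hS.prod (measurableSet_singleton 0)))
  let ψ : {y // ∃ p, E y (φ p)} → (ℕ → Bool) × ℕ := fun y => (a y, ν y)
  have hψm : Measurable ψ := ham.prodMk hν
  have hψi : Function.Injective ψ := by
    intro y y' h
    have h1 : a y = a y' := congrArg Prod.fst h
    have h2 : ν y = ν y' := congrArg Prod.snd h
    apply Subtype.ext
    rw [← hinv (ν y) y.1, ← ha y, h1, ha y', ← h2]
    rw [h2, hinv]
  have hψE : ∀ y, E y.1 (φ (ψ y)) := by
    intro y
    have h1 : E y.1 (φ (a y, 0)) := by rw [ha]; exact (hsE _ _).2 ⟨_, rfl⟩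
    exact hE.trans h1 ((hφE _ _).2 (E0.refl _))
  let g : (ℕ → Bool) × ℕ → {y // ∃ p, E y (φ p)} := fun p => ⟨φ p, p, hE.refl _⟩
  have hgm : Measurable g := hφ.subtype_mk
  have hgi : Function.Injective g := fun p q h => hφi (congrArg Subtype.val h)
  obtain ⟨h, hh⟩ := sb hψm hψi hgm hgi
  refine ⟨h, fun y => ?_⟩
  rcases hh y with h1 | h1
  · rw [h1]
    exact hψE y
  · have h2 : φ (h y) = y.1 := congrArg Subtype.val h1
    rw [h2]
    exact hE.refl _

end Pool.Agent.R604.RZ
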