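import Pool.Agent.R604.RZ.A

/-!
# The space `Z`
-/

set_option autoImplicit false
set_option linter.unusedSectionVars false

open Set MeasureTheory Topology

namespace Pool.Agent.R604.RZ

theorem cont_cond {Z W : Type*} [TopologicalSpace Z] [TopologicalSpace W] {b : Z → Bool}
    {u v : Z → W} (hb : Continuous b) (hu : Continuous u) (hv : Continuous v) :
    Continuous (fun z => bif b z then u z else v z) := by
  rw [continuous_iff_continuousAt]
  intro z
  cases hz : b z with
  | true =>
    have h1 : ∀ᶠ z' in 𝓝 z, b z' = true :=
      (hb.tendsto z).eventually (by rw [hz]; exact IsOpen.mem_nhds (isOpen_discrete {x | x = true}) rfl)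
    refine hu.continuousAt.congr ?_
    filter_upwards [h1] with z' hz'
    simp [hz']
  | false =>
    have h1 : ∀ᶠ z' in 𝓝 z, b z' = false :=
      (hb.tendsto z).eventually (by rw [hz]; exact IsOpen.mem_nhds (isOpen_discrete {x | x = false}) rfl)
    refine hv.continuousAt.congr ?_
    filter_upwards [h1] with z' hz'
    simp [hz']

section

variable {W : Type} [TopologicalSpace W] [PolishSpace W] {D : Set W}

/-- the index set -/
abbrev J (D : Set W) : Type := D × ℕ

/-- the points -/
def Zt (D : Set W) : Type := W ⊕ (J D × (ℕ → Bool))

open Classical in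
/-- the embedding in a product -/
noncomputable def em (z : Zt D) : W × (J D → Bool) × (J D → ℕ → Bool) :=
  Sum.elim (fun w => (w, fun _ => false, fun _ _ => false))
    (fun q => (q.1.1.1, fun i => decide (i = q.1), fun i => if i = q.1 then q.2 else fun _ => false)) z

theorem em_inl (w : W) : em (D := D) (Sum.inl w) = (w, fun _ => false, fun _ _ => false) := rfl

open Classical in
theorem em_inr (j : J D) (a : ℕ → Bool) : em (D := D) (Sum.inr (j, a)) =
    (j.1.1, fun i => decide (i = j), fun i => if i = j then a else fun _ => false) := rfl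

noncomputable instance : TopologicalSpace (Zt D) := TopologicalSpace.induced em inferInstance

/-- the points of `W` -/
def il (w : W) : Zt D := Sum.inl w

/-- the other points -/
def ir (j : J D) (a : ℕ → Bool) : Zt D := Sum.inr (j, a)

theorem em_inj : Function.Injective (em (D := D)) := by
  classical
  rintro (w | ⟨j, a⟩) (w' | ⟨j', a'⟩) h
  · rw [em_inl, em_inl] at h
    have h1 := congrArg Prod.fst h
    exact congrArg Sum.inl h1
  · rw [em_inl, em_inr] at h
    have h1 := congrFun (congrArg (fun q => q.2.1) h) j'
    simp at h1
  · rw [em_inl, em_inr] at h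
    have h1 := congrFun (congrArg (fun q => q.2.1) h) j
    simp at h1
  · rw [em_inr, em_inr] at h
    have h1 : j = j' := by
      have h2 := congrFun (congrArg (fun q => q.2.1) h) j
      simpa using h2
    subst h1
    have h3 : a = a' := by
      have h2 := congrFun (congrArg (fun q => q.2.2) h) j
      simpa using h2
    rw [h3]

theorem em_range : range (em (D := D)) =
    {q | (∀ i j, q.2.1 i = true → q.2.1 j = true → i = j) ∧ (∀ j, q.2.1 j = true → q.1 = j.1.1) ∧
      ∀ j, q.2.1 j = false → q.2.2 j = fun _ => false} := by
  classical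
  ext ⟨w, f, c⟩
  constructor
  · rintro ⟨w' | ⟨j', a'⟩, h⟩
    · rw [em_inl] at h
      rw [← h]
      exact ⟨fun i j h1 => absurd h1 (by simp), fun j h1 => absurd h1 (by simp), fun _ _ => rfl⟩
    · rw [em_inr] at h
      rw [← h]
      refine ⟨fun i j h1 h2 => ?_, fun j h1 => ?_, fun j h1 => ?_⟩
      · simp only [decide_eq_true_eq] at h1 h2
        rw [h1, h2]
      · simp only [decide_eq_true_eq] at h1
        rw [h1]
      · simp only [decide_eq_false_iff_not] at h1
        simp only [if_neg h1]
  · rintro ⟨h1, h2, h3⟩
    simp only at h1 h2 h3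
    by_cases h : ∃ j, f j = true
    · obtain ⟨j, hj⟩ := h
      refine ⟨Sum.inr (j, c j), ?_⟩
      rw [em_inr]
      refine Prod.ext (h2 j hj).symm (Prod.ext (funext fun i => ?_) (funext fun i => ?_))
      · by_cases hij : i = j
        · subst hij
          simp [hj]
        · have : f i = false := by
            by_contra hne
            exact hij (h1 i j (by simpa using hne) hj)
          simp [hij, this]
      · by_cases hij : i = j
        · subst hij
          simp
        · have : f i = false := by
            by_contra hne
            exact hij (h1 i j (by simpa using hne) hj)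
          simp [hij, h3 i this]
    · push Not at h
      have h' : ∀ j, f j = false := fun j => by simpa using h j
      refine ⟨Sum.inl w, ?_⟩
      rw [em_inl]
      refine Prod.ext rfl (Prod.ext (funext fun i => (h' i).symm) (funext fun i => ?_))
      exact (h3 i (h' i)).symm

theorem em_closed : IsClosed (range (em (D := D))) := by
  rw [em_range]
  have hB : ∀ (j : J D) (b : Bool), IsClosed {q : W × (J D → Bool) × (J D → ℕ → Bool) |
      q.2.1 j = b} := fun j b => isClosed_eq (by fun_prop) continuous_const
  have e : {q : W × (J D → Bool) × (J D → ℕ → Bool) |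
      (∀ i j, q.2.1 i = true → q.2.1 j = true → i = j) ∧ (∀ j, q.2.1 j = true → q.1 = j.1.1) ∧
      ∀ j, q.2.1 j = false → q.2.2 j = fun _ => false} =
      (⋂ i, ⋂ j, ({q | q.2.1 i = false} ∪ ({q | q.2.1 j = false} ∪ {q | i = j}))) ∩
      ((⋂ j, ({q | q.2.1 j = false} ∪ {q | q.1 = j.1.1})) ∩
        ⋂ j, ({q | q.2.1 j = true} ∪ {q | q.2.2 j = fun _ => false})) := by
    ext q
    simp only [mem_inter_iff, mem_iInter, mem_union, mem_ofPred_eq]
    refine and_congr (forall_congr' fun i => forall_congr' fun j => ?_)
      (and_congr (forall_congr' fun j => ?_) (forall_congr' fun j => ?_))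
    · cases q.2.1 i <;> cases q.2.1 j <;> simp
    · cases q.2.1 j <;> simp
    · cases q.2.1 j <;> simp
  rw [e]
  refine IsClosed.inter (isClosed_iInter fun i => isClosed_iInter fun j => ?_)
    (IsClosed.inter (isClosed_iInter fun j => ?_) (isClosed_iInter fun j => ?_))
  · refine (hB i false).union ((hB j false).union ?_)
    by_cases h : i = j
    · simp [h]
    · simp [h]
  · exact (hB j false).union (isClosed_eq continuous_fst continuous_const)
  · exact (hB j true).union (isClosed_eq (by fun_prop) continuous_const)

theorem em_emb : IsClosedEmbedding (em (D := D)) :=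
  ⟨⟨⟨rfl⟩, em_inj⟩, em_closed⟩

theorem polish_Zt (hD : D.Countable) : PolishSpace (Zt D) := by
  have : Countable D := hD.to_subtype
  have : PolishSpace (W × (J D → Bool) × (J D → ℕ → Bool)) := ⟨⟩
  exact em_emb.polishSpace

theorem cont_iff {Y : Type*} [TopologicalSpace Y] {t : Y → Zt D} :
    Continuous t ↔ Continuous (fun y => em (t y)) := em_emb.isInducing.continuous_iff

theorem cont_em : Continuous (em (D := D)) := em_emb.continuous

theorem cont_inl : Continuous (fun w : W => (il w : Zt D)) := by
  rw [cont_iff]
  exact continuous_id.prodMk continuous_const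

theorem cont_inr (j : J D) : Continuous (fun a : ℕ → Bool => (ir j a : Zt D)) := by
  classical
  rw [cont_iff]
  show Continuous (fun a : ℕ → Bool => em (D := D) (Sum.inr (j, a)))
  simp only [em_inr]
  refine continuous_const.prodMk (continuous_const.prodMk (continuous_pi fun i => ?_))
  by_cases h : i = j
  · simp only [if_pos h]
    exact continuous_id
  · simp only [if_neg h]
    exact continuous_const

/-! ### the generators -/

variable (σ : W → W) (hσ : ∀ w, σ (σ w) = w) (hσD : ∀ w ∈ D, σ w ∈ D)

/-- the map on the index set -/
def tj (j : J D) : J D := (⟨σ j.1.1, hσD _ j.1.2⟩, j.2)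

include hσ in
theorem tj_tj (j : J D) : tj σ hσD (tj σ hσD j) = j := by
  refine Prod.ext (Subtype.ext ?_) rfl
  exact hσ _

/-- lifted involution -/
def tau (z : Zt D) : Zt D :=
  Sum.elim (fun w => Sum.inl (σ w)) (fun q => Sum.inr (tj σ hσD q.1, q.2)) z

include hσ in
theorem tau_tau (z : Zt D) : tau σ hσD (tau σ hσD z) = z := by
  rcases z with w | ⟨j, a⟩
  · show (Sum.inl (σ (σ w)) : Zt D) = Sum.inl w
    rw [hσ]
  · show (Sum.inr (tj σ hσD (tj σ hσD j), a) : Zt D) = Sum.inr (j, a)
    rw [tj_tj σ hσ]

include hσ in
theorem tau_cont (hc : Continuous σ) : Continuous (tau σ hσD) := by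
  classical
  rw [cont_iff]
  have e : (fun z : Zt D => em (tau σ hσD z)) = fun z => (σ (em z).1,
      fun i => (em z).2.1 (tj σ hσD i), fun i => (em z).2.2 (tj σ hσD i)) := by
    funext z
    rcases z with w | ⟨j, a⟩
    · rfl
    · show em (Sum.inr (tj σ hσD j, a)) = _
      rw [em_inr, em_inr]
      have h1 : ∀ i, i = tj σ hσD j ↔ tj σ hσD i = j := by
        intro i
        constructor
        · intro h
          rw [h, tj_tj σ hσ]
        · intro h
          rw [← h, tj_tj σ hσ]
      refine Prod.ext rfl (Prod.ext (funext fun i => ?_) (funext fun i => ?_))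
      · simp only [h1]
      · simp only [h1]
  rw [e]
  have h1 := cont_em (D := D)
  have h2 : Continuous fun z : Zt D => (em z).1 := h1.fst
  have h3 : Continuous fun z : Zt D => (em z).2.1 := h1.snd.fst
  have h4 : Continuous fun z : Zt D => (em z).2.2 := h1.snd.snd
  exact (hc.comp h2).prodMk ((continuous_pi fun i => (continuous_apply _).comp h3).prodMk
    (continuous_pi fun i => (continuous_apply _).comp h4))

/-- flip the coordinates in `F` -/
def flipA (F : Finset ℕ) (a : ℕ → Bool) : ℕ → Bool := fun m => if m ∈ F then !a m else a m

theorem flipA_flipA (F : Finset ℕ) (a : ℕ → Bool) : flipA F (flipA F a) = a := by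
  funext m
  unfold flipA
  by_cases h : m ∈ F
  · simp [h]
  · simp [h]

/-- lifted flip -/
def flp (F : Finset ℕ) (z : Zt D) : Zt D :=
  Sum.elim (fun w => Sum.inl w) (fun q => Sum.inr (q.1, flipA F q.2)) z

theorem flp_flp (F : Finset ℕ) (z : Zt D) : flp F (flp F z) = z := by
  rcases z with w | ⟨j, a⟩
  · rfl
  · show (Sum.inr (j, flipA F (flipA F a)) : Zt D) = Sum.inr (j, a)
    rw [flipA_flipA]

theorem flp_cont (F : Finset ℕ) : Continuous (flp (D := D) F) := by
  classical
  rw [cont_iff]
  have e : (fun z : Zt D => em (flp F z)) = fun z => ((em z).1, (em z).2.1,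
      fun i m => if m ∈ F then ((em z).2.1 i && !(em z).2.2 i m) else (em z).2.2 i m) := by
    funext z
    rcases z with w | ⟨j, a⟩
    · show em (Sum.inl w) = _
      rw [em_inl]
      refine Prod.ext rfl (Prod.ext rfl (funext fun i => funext fun m => ?_))
      simp
    · show em (Sum.inr (j, flipA F a)) = _
      rw [em_inr, em_inr]
      refine Prod.ext rfl (Prod.ext rfl (funext fun i => funext fun m => ?_))
      by_cases h : i = j
      · subst h
        simp [flipA]
      · simp [h]
  rw [e]
  have h1 := cont_em (D := D)
  have h2 : Continuous fun z : Zt D => (em z).1 := h1.fst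
  have h3 : Continuous fun z : Zt D => (em z).2.1 := h1.snd.fst
  have h4 : Continuous fun z : Zt D => (em z).2.2 := h1.snd.snd
  refine h2.prodMk (h3.prodMk (continuous_pi fun i => continuous_pi fun m => ?_))
  have h5 : Continuous fun z : Zt D => (em z).2.1 i := (continuous_apply i).comp h3
  have h6 : Continuous fun z : Zt D => (em z).2.2 i m :=
    (continuous_apply m).comp ((continuous_apply i).comp h4)
  by_cases h : m ∈ F
  · simp only [if_pos h]
    exact (continuous_of_discreteTopology (f := fun q : Bool × Bool => (q.1 && !q.2))).comp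
      (h5.prodMk h6)
  · simp only [if_neg h]
    exact h6

open Classical in
/-- lifted transposition -/
noncomputable def swp (k l : J D) (z : Zt D) : Zt D :=
  Sum.elim (fun w => Sum.inl w) (fun q => Sum.inr (Equiv.swap k l q.1, q.2)) z

theorem swp_swp (k l : J D) (z : Zt D) : swp k l (swp k l z) = z := by
  classical
  rcases z with w | ⟨j, a⟩
  · rfl
  · show (Sum.inr (Equiv.swap k l (Equiv.swap k l j), a) : Zt D) = Sum.inr (j, a)
    rw [Equiv.swap_apply_self]

theorem swp_cont (k l : J D) : Continuous (swp (D := D) k l) := by
  classical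
  rw [cont_iff]
  have e : (fun z : Zt D => em (swp k l z)) = fun z =>
      (bif (em z).2.1 k then l.1.1 else (bif (em z).2.1 l then k.1.1 else (em z).1),
      fun i => (em z).2.1 (Equiv.swap k l i), fun i => (em z).2.2 (Equiv.swap k l i)) := by
    funext z
    rcases z with w | ⟨j, a⟩
    · rfl
    · show em (Sum.inr (Equiv.swap k l j, a)) = _
      rw [em_inr, em_inr]
      have h1 : ∀ i, i = Equiv.swap k l j ↔ Equiv.swap k l i = j := by
        intro i
        constructor
        · intro h
          rw [h, Equiv.swap_apply_self]
        · intro h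
          rw [← h, Equiv.swap_apply_self]
      refine Prod.ext ?_ (Prod.ext (funext fun i => ?_) (funext fun i => ?_))
      · simp only
        by_cases hk : k = j
        · subst hk
          simp
        · by_cases hl : l = j
          · subst hl
            simp [hk]
          · rw [Equiv.swap_apply_of_ne_of_ne (Ne.symm hk) (Ne.symm hl)]
            simp [hk, hl]
      · simp only [h1]
      · simp only [h1]
  rw [e]
  have h1 := cont_em (D := D)
  have h2 : Continuous fun z : Zt D => (em z).1 := h1.fst
  have h3 : Continuous fun z : Zt D => (em z).2.1 := h1.snd.fst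
  have h4 : Continuous fun z : Zt D => (em z).2.2 := h1.snd.snd
  refine Continuous.prodMk ?_ ((continuous_pi fun i => (continuous_apply _).comp h3).prodMk
    (continuous_pi fun i => (continuous_apply _).comp h4))
  exact cont_cond ((continuous_apply k).comp h3) continuous_const
    (cont_cond ((continuous_apply l).comp h3) continuous_const h2)

end

end Pool.Agent.R604.RZ
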