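import Pool.Agent.R604.RZ.B
import Pool.Agent.H139R3.FM
import Pool.Agent.TH286.CR.GE

/-!
# Transitive continuous action realizations
-/

set_option autoImplicit false
set_option linter.unusedSectionVars false

open Set MeasureTheory Topology Filter

namespace Pool.Agent.R604.RZ

/-- a relation generated by countably many continuous involutions -/
theorem exists_group {Z ι : Type} [TopologicalSpace Z] [Countable ι] (g : ι → Z → Z)
    (hg : ∀ i z, g i (g i z) = z) (hc : ∀ i, Continuous (g i)) (R : Z → Z → Prop)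
    (hR : Equivalence R) (h1 : ∀ i z, R z (g i z))
    (h2 : ∀ z z', R z z' → ∃ i j, g i (g j z) = z') :
    ∃ (G : Type) (_ : Group G) (_ : Countable G) (_ : MulAction G Z),
      (∀ γ : G, Continuous fun z : Z => γ • z) ∧ ∀ z z', R z z' ↔ z' ∈ MulAction.orbit G z := by
  let P : ι → Equiv.Perm Z := fun i => ⟨g i, g i, hg i, hg i⟩
  let Φ : FreeGroup ι →* Equiv.Perm Z := FreeGroup.lift P
  let A : MulAction (FreeGroup ι) Z := MulAction.compHom Z Φ
  have hcnt : Countable (FreeGroup ι) := inferInstance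
  have e1 : ∀ (i : ι) (z : Z), (FreeGroup.of i : FreeGroup ι) • z = g i z := by
    intro i z
    show Φ (FreeGroup.of i) z = g i z
    rw [FreeGroup.lift_apply_of]
    rfl
  have e2 : ∀ (i : ι) (z : Z), ((FreeGroup.of i)⁻¹ : FreeGroup ι) • z = g i z := by
    intro i z
    rw [inv_smul_eq_iff, e1, hg]
  refine ⟨FreeGroup ι, inferInstance, hcnt, A, fun γ => ?_, fun z z' => ⟨fun h => ?_, ?_⟩⟩
  · induction γ using FreeGroup.induction_on with
    | C1 =>
      simp only [one_smul]
      exact continuous_id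
    | of i =>
      have : (fun z : Z => (FreeGroup.of i : FreeGroup ι) • z) = g i := funext (e1 i)
      exact (congrArg Continuous this).mpr (hc i)
    | inv_of i _ =>
      have : (fun z : Z => ((FreeGroup.of i)⁻¹ : FreeGroup ι) • z) = g i := funext (e2 i)
      exact (congrArg Continuous this).mpr (hc i)
    | mul x y hx hy =>
      have : (fun z : Z => (x * y) • z) = (fun z : Z => x • z) ∘ (fun z : Z => y • z) := by
        funext z
        exact mul_smul x y z
      rw [this]
      exact hx.comp hy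
  · obtain ⟨i, j, hij⟩ := h2 z z' h
    refine ⟨FreeGroup.of i * FreeGroup.of j, ?_⟩
    show (FreeGroup.of i * FreeGroup.of j) • z = z'
    rw [mul_smul, e1, e1, hij]
  · rintro ⟨γ, rfl⟩
    show R z (γ • z)
    induction γ using FreeGroup.induction_on generalizing z with
    | C1 => rw [one_smul]; exact hR.refl _
    | of i =>
      have : (FreeGroup.of i : FreeGroup ι) • z = g i z := e1 i z
      exact (congrArg (R z) this).mpr (h1 i z)
    | inv_of i _ =>
      have : ((FreeGroup.of i)⁻¹ : FreeGroup ι) • z = g i z := e2 i z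
      exact (congrArg (R z) this).mpr (h1 i z)
    | mul x y hx hy =>
      rw [mul_smul]
      exact hR.trans (hy z) (hx (y • z))

theorem emb_sum {A B Z : Type} [MeasurableSpace A] [MeasurableSpace B] [MeasurableSpace Z]
    {f : A → Z} {g : B → Z} (hf : MeasurableEmbedding f) (hg : MeasurableEmbedding g)
    (hm : Measurable (Sum.elim f g)) (hi : Function.Injective (Sum.elim f g)) :
    MeasurableEmbedding (Sum.elim f g) := by
  refine ⟨hi, hm, fun S hS => ?_⟩
  have : Sum.elim f g '' S = f '' (Sum.inl ⁻¹' S) ∪ g '' (Sum.inr ⁻¹' S) := by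
    ext z
    constructor
    · rintro ⟨(a | b), h, rfl⟩
      · exact Or.inl ⟨a, h, rfl⟩
      · exact Or.inr ⟨b, h, rfl⟩
    · rintro (⟨a, h, rfl⟩ | ⟨b, h, rfl⟩)
      · exact ⟨Sum.inl a, h, rfl⟩
      · exact ⟨Sum.inr b, h, rfl⟩
  rw [this]
  exact (hf.measurableSet_image.2 (measurable_inl hS)).union
    (hg.measurableSet_image.2 (measurable_inr hS))

/-- the relation on the disjoint union -/
def Rs {W : Type} (E : W → W → Prop) : ((ℕ → Bool) × ℕ) ⊕ W → ((ℕ → Bool) × ℕ) ⊕ W → Prop
  | .inl p, .inl q => E0 p.1 q.1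
  | .inr w, .inr w' => E w w'
  | _, _ => False

theorem dense_E0 (a0 a : ℕ → Bool) : a ∈ closure {b | E0 a0 b} := by
  have h : Tendsto (fun k : ℕ => fun m => if m < k then a m else a0 m) atTop (𝓝 a) := by
    rw [tendsto_pi_nhds]
    intro m
    refine tendsto_const_nhds.congr' ?_
    filter_upwards [eventually_gt_atTop m] with k hk
    rw [if_pos hk]
  refine mem_closure_of_tendsto h (Eventually.of_forall fun k => ⟨k, fun n hn => ?_⟩)
  simp only [if_neg (not_lt.2 hn)]

theorem core {W : Type} [TopologicalSpace W] [PolishSpace W] [MeasurableSpace W] [BorelSpace W]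
    [Nonempty W] (s : ℕ → W → W) (hs : ∀ n, Continuous (s n)) (hinv : ∀ n w, s n (s n w) = w)
    (E : W → W → Prop) (hE : Equivalence E) (hsE : ∀ x y, E x y ↔ ∃ n, s n x = y) :
    ∃ (Z : Type) (_ : TopologicalSpace Z) (_ : PolishSpace Z) (_ : MeasurableSpace Z)
      (_ : BorelSpace Z) (G : Type) (_ : Group G) (_ : Countable G) (_ : MulAction G Z)
      (e : (((ℕ → Bool) × ℕ) ⊕ W) ≃ᵐ Z), (∀ g : G, Continuous fun z : Z => g • z) ∧
      (∀ x y, Rs E x y ↔ e y ∈ MulAction.orbit G (e x)) ∧
      ∃ z : Z, Dense (MulAction.orbit G z) := by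
  classical
  -- a countable dense invariant set
  obtain ⟨D0, hD0c, hD0d⟩ := TopologicalSpace.exists_countable_dense W
  let D : Set W := ⋃ n, s n '' D0
  have hDc : D.Countable := countable_iUnion fun n => hD0c.image _
  have hmemD : ∀ w, w ∈ D ↔ ∃ d ∈ D0, E d w := by
    intro w
    constructor
    · intro hw
      obtain ⟨n, d, hd, hdw⟩ := mem_iUnion.1 hw
      exact ⟨d, hd, (hsE _ _).2 ⟨n, hdw⟩⟩
    · rintro ⟨d, hd, hdw⟩
      obtain ⟨n, hn⟩ := (hsE _ _).1 hdw
      exact mem_iUnion.2 ⟨n, d, hd, hn⟩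
  have hDd : Dense D := hD0d.mono fun d hd => (hmemD d).2 ⟨d, hd, hE.refl _⟩
  have hDs : ∀ n, ∀ w ∈ D, s n w ∈ D := by
    intro n w hw
    obtain ⟨d, hd, hdw⟩ := (hmemD w).1 hw
    exact (hmemD _).2 ⟨d, hd, hE.trans hdw ((hsE _ _).2 ⟨n, rfl⟩)⟩
  have hDn : D.Nonempty := hDd.nonempty
  have hDC : Countable D := hDc.to_subtype
  have hDN : Nonempty D := hDn.to_subtype
  have hJi : Infinite (J D) := inferInstance
  obtain ⟨eJ⟩ : Nonempty (ℕ ≃ J D) := nonempty_equiv_of_countable
  have hP : PolishSpace (Zt D) := polish_Zt hDc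
  let mZ : MeasurableSpace (Zt D) := borel _
  have bZ : BorelSpace (Zt D) := ⟨rfl⟩
  -- the measurable equivalence
  let F : (((ℕ → Bool) × ℕ) ⊕ W) → Zt D := Sum.elim (fun p => ir (eJ p.2) p.1) il
  have hF : Measurable F := by
    refine Measurable.sumElim ?_ cont_inl.measurable
    have h1 : Measurable (fun p : (ℕ → Bool) × ℕ => (ir (eJ p.2) p.1 : Zt D)) :=
      measurable_from_prod_countable_left fun n => (cont_inr (eJ n)).measurable
    exact h1
  have hFb : Function.Bijective F := by
    constructor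
    · rintro (p | w) (q | w') h
      · have h1 : ((eJ p.2, p.1) : J D × (ℕ → Bool)) = (eJ q.2, q.1) := Sum.inr.inj h
        have h2 : eJ p.2 = eJ q.2 := congrArg Prod.fst h1
        have h3 : p.1 = q.1 := congrArg Prod.snd h1
        exact congrArg Sum.inl (Prod.ext h3 (eJ.injective h2))
      · have h' : (Sum.inr (eJ p.2, p.1) : W ⊕ (J D × (ℕ → Bool))) = Sum.inl w' := h
        cases h'
      · have h' : (Sum.inl w : W ⊕ (J D × (ℕ → Bool))) = Sum.inr (eJ q.2, q.1) := h
        cases h'
      · exact congrArg Sum.inr (Sum.inl.inj h)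
    · rintro (w | ⟨j, a⟩)
      · exact ⟨Sum.inr w, rfl⟩
      · refine ⟨Sum.inl (a, eJ.symm j), ?_⟩
        show ir (eJ (eJ.symm j)) a = _
        rw [eJ.apply_symm_apply]
        rfl
  have hFl : MeasurableEmbedding (fun p : (ℕ → Bool) × ℕ => (ir (eJ p.2) p.1 : Zt D)) := by
    have h1 : Measurable (fun p : (ℕ → Bool) × ℕ => (ir (eJ p.2) p.1 : Zt D)) :=
      measurable_from_prod_countable_left fun n => (cont_inr (eJ n)).measurable
    exact h1.measurableEmbedding fun p q h => Sum.inl.inj (hFb.1 h)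
  have hFr : MeasurableEmbedding (fun w : W => (il w : Zt D)) :=
    cont_inl.measurable.measurableEmbedding fun p q h => Sum.inr.inj (hFb.1 h)
  obtain ⟨e, he⟩ := equiv_of_emb (emb_sum hFl hFr hF hFb.1) hFb
  -- the relation on `Z`
  let R : Zt D → Zt D → Prop := fun z z' => Rs E (e.symm z) (e.symm z')
  have hesymm : ∀ x, e.symm (F x) = x := fun x => by
    have h1 : F x = e x := (he x).symm
    rw [h1, e.symm_apply_apply]
  have hRs : Equivalence (Rs E) := by
    refine ⟨?_, ?_, ?_⟩
    · rintro (p | w)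
      · exact E0.refl _
      · exact hE.refl _
    · rintro (p | w) (q | w') h
      · exact E0.symm h
      · exact h
      · exact h
      · exact hE.symm h
    · rintro (p | w) (q | w') (r | w'') h h'
      · exact E0.trans h h'
      · exact h'
      · exact h.elim
      · exact h.elim
      · exact h.elim
      · exact h.elim
      · exact h'
      · exact hE.trans h h'
  have hR : Equivalence R := ⟨fun z => hRs.refl _, fun h => hRs.symm h, fun h h' => hRs.trans h h'⟩
  have hesl : ∀ w, e.symm (il w) = Sum.inr w := fun w => hesymm (Sum.inr w)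
  have hesr : ∀ j a, e.symm (ir j a) = Sum.inl (a, eJ.symm j) := by
    intro j a
    have := hesymm (Sum.inl (a, eJ.symm j))
    have h2 : F (Sum.inl (a, eJ.symm j)) = ir j a := by
      show ir (eJ (eJ.symm j)) a = _
      rw [eJ.apply_symm_apply]
    rwa [h2] at this
  have hRr : ∀ j a j' a', R (ir j a) (ir j' a') ↔ E0 a a' := by
    intro j a j' a'
    show Rs E (e.symm (ir j a)) (e.symm (ir j' a')) ↔ _
    rw [hesr, hesr]
    exact Iff.rfl
  have hRl : ∀ w w', R (il w) (il w') ↔ E w w' := by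
    intro w w'
    show Rs E (e.symm (il w)) (e.symm (il w')) ↔ _
    rw [hesl, hesl]
    exact Iff.rfl
  have hRlr : ∀ w j a, ¬ R (il w) (ir j a) := by
    intro w j a
    show ¬ Rs E (e.symm (il w)) (e.symm (ir j a))
    rw [hesl, hesr]
    exact id
  have hRrl : ∀ w j a, ¬ R (ir j a) (il w) := by
    intro w j a
    show ¬ Rs E (e.symm (ir j a)) (e.symm (il w))
    rw [hesl, hesr]
    exact id
  -- generators
  let g : ℕ ⊕ (Finset ℕ ⊕ (J D × J D)) → Zt D → Zt D := fun i =>
    Sum.elim (fun n => tau (s n) (hDs n)) (Sum.elim (fun F => flp F) (fun q => swp q.1 q.2)) i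
  have g0 : ∀ n, g (Sum.inl n) = tau (s n) (hDs n) := fun n => rfl
  have g1 : ∀ F, g (Sum.inr (Sum.inl F)) = flp F := fun n => rfl
  have g2 : ∀ q, g (Sum.inr (Sum.inr q)) = swp q.1 q.2 := fun n => rfl
  obtain ⟨G, i1, i2, i3, hGc, hGR⟩ := exists_group g (by
      rintro (n | F | q) z
      · exact tau_tau _ (hinv n) _ z
      · exact flp_flp _ z
      · exact swp_swp _ _ z) (by
      rintro (n | F | q)
      · exact tau_cont _ (hinv n) _ (hs n)
      · exact flp_cont _
      · exact swp_cont _ _) R hR (by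
      rintro (n | F | q) (w | ⟨j, a⟩)
      · exact (hRl w _).2 ((hsE _ _).2 ⟨n, rfl⟩)
      · exact (hRr j a _ _).2 (E0.refl _)
      · exact (hRl w _).2 (hE.refl _)
      · refine (hRr j a _ _).2 ⟨(F.sup id) + 1, fun n hn => ?_⟩
        have : n ∉ F := by
          intro hnF
          have := Finset.le_sup (f := id) hnF
          simp only [id] at this
          omega
        simp [flipA, this]
      · exact (hRl w _).2 (hE.refl _)
      · exact (hRr j a _ _).2 (E0.refl _)) (by
      have hflp0 : ∀ z : Zt D, flp ∅ z = z := by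
        rintro (w | ⟨j, a⟩)
        · rfl
        · show (Sum.inr (j, flipA ∅ a) : Zt D) = Sum.inr (j, a)
          congr 2
      rintro (w | ⟨j, a⟩) (w' | ⟨j', a'⟩) h
      · obtain ⟨n, hn⟩ := (hsE _ _).1 ((hRl w w').1 h)
        refine ⟨Sum.inr (Sum.inl ∅), Sum.inl n, ?_⟩
        rw [g1, g0, hflp0]
        show (Sum.inl (s n w) : Zt D) = Sum.inl w'
        rw [hn]
      · exact absurd h (hRlr _ _ _)
      · exact absurd h (hRrl _ _ _)
      · obtain ⟨N, hN⟩ := (hRr j a j' a').1 h
        refine ⟨Sum.inr (Sum.inr (j, j')), Sum.inr (Sum.inl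
          ((Finset.range N).filter fun m => a m ≠ a' m)), ?_⟩
        rw [g1, g2]
        show (Sum.inr (Equiv.swap j j' j, flipA _ a) : Zt D) = Sum.inr (j', a')
        rw [Equiv.swap_apply_left]
        congr 2
        funext m
        unfold flipA
        by_cases hm : m < N
        · by_cases hne : a m = a' m
          · simp [hm, hne]
          · have : (!a m) = a' m := by
              cases h1 : a m <;> cases h2 : a' m <;> simp_all
            simp [hm, hne, this]
        · simp only [Finset.mem_filter, Finset.mem_range, hm, false_and, if_false]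
          exact hN m (not_lt.1 hm))
  refine ⟨Zt D, inferInstance, hP, mZ, bZ, G, i1, i2, i3, e, hGc, fun x y => ?_, ?_⟩
  · rw [← hGR]
    show _ ↔ Rs E (e.symm (e x)) (e.symm (e y))
    rw [e.symm_apply_apply, e.symm_apply_apply]
  · -- density
    obtain ⟨j0⟩ : Nonempty (J D) := inferInstance
    refine ⟨ir j0 fun _ => false, ?_⟩
    have horb : ∀ z, z ∈ MulAction.orbit G (ir j0 fun _ => false : Zt D) ↔
        R (ir j0 fun _ => false) z := fun z => (hGR _ _).symm
    have h1 : ∀ j a, (ir j a : Zt D) ∈ closure (MulAction.orbit G (ir j0 fun _ => false : Zt D)) := by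
      intro j a
      have h2 : ir j a ∈ (fun a : ℕ → Bool => (ir j a : Zt D)) '' closure {b | E0 (fun _ => false) b} :=
        ⟨a, dense_E0 _ a, rfl⟩
      have h3 := image_closure_subset_closure_image (cont_inr j) h2
      refine closure_mono ?_ h3
      rintro _ ⟨b, hb, rfl⟩
      rw [horb]
      exact (hRr _ _ _ _).2 hb
    rintro (w | ⟨j, a⟩)
    · have h2 : (il w : Zt D) ∈ closure (range fun q : J D × (ℕ → Bool) => (ir q.1 q.2 : Zt D)) := by
        obtain ⟨d, hd, hdw⟩ := mem_closure_iff_seq_limit.1 (hDd w)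
        have h3 : Tendsto (fun k : ℕ => (ir ((⟨d k, hd k⟩, k) : J D) (fun _ => false) : Zt D)) atTop
            (𝓝 (il w)) := by
          rw [em_emb.isInducing.tendsto_nhds_iff]
          have h4 : (em ∘ fun k : ℕ => (ir ((⟨d k, hd k⟩, k) : J D) (fun _ => false) : Zt D)) =
              fun k : ℕ => (d k, fun i => decide (i = ((⟨d k, hd k⟩, k) : J D)), fun _ _ => false) := by
            funext k
            show em (Sum.inr (((⟨d k, hd k⟩, k) : J D), fun _ => false)) = _
            rw [em_inr]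
            refine Prod.ext rfl (Prod.ext rfl (funext fun i => ?_))
            by_cases h : i = ((⟨d k, hd k⟩, k) : J D)
            · simp only [if_pos h]
            · simp only [if_neg h]
          rw [h4]
          show Tendsto _ atTop (𝓝 (em (Sum.inl w)))
          rw [em_inl]
          refine hdw.prodMk_nhds (Tendsto.prodMk_nhds ?_ tendsto_const_nhds)
          rw [tendsto_pi_nhds]
          intro i
          refine tendsto_const_nhds.congr' ?_
          filter_upwards [eventually_gt_atTop i.2] with k hk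
          have : i ≠ ((⟨d k, hd k⟩, k) : J D) := by
            intro h
            have : i.2 = k := congrArg Prod.snd h
            omega
          simp [this]
        exact mem_closure_of_tendsto h3 (Eventually.of_forall fun k => ⟨(_, _), rfl⟩)
      have h5 : closure (range fun q : J D × (ℕ → Bool) => (ir q.1 q.2 : Zt D)) ⊆
          closure (MulAction.orbit G (ir j0 fun _ => false : Zt D)) := by
        refine closure_minimal ?_ isClosed_closure
        rintro _ ⟨q, rfl⟩
        exact h1 _ _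
      exact h5 h2
    · exact h1 j a

theorem exists_top {W : Type} [MeasurableSpace W] [StandardBorelSpace W] (g : ℕ → W → W)
    (hg : ∀ n, Measurable (g n)) : ∃ t : TopologicalSpace W, @PolishSpace W t ∧
      @BorelSpace W t _ ∧ ∀ n, @Continuous W W t t (g n) := by
  let _ := upgradeStandardBorel W
  obtain ⟨t, -, h1, h2, h3, -⟩ := Pool.Agent.H139R3.MF.exists_topology (X := W) (H := Unit) g hg
    (fun _ => ()) measurable_const
  exact ⟨t, h1, h2, h3⟩

theorem main {X : Type} [MeasurableSpace X] [StandardBorelSpace X] (E : X → X → Prop)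
    (hE : Equivalence E) (hB : MeasurableSet {p : X × X | E p.1 p.2})
    (hC : ∀ x, {y | E x y}.Countable)
    (hns : ¬ ∃ f : X → ℝ, Measurable f ∧ ∀ x y, E x y ↔ f x = f y) :
    ∃ (Z : Type) (_ : TopologicalSpace Z) (_ : PolishSpace Z) (_ : MeasurableSpace Z)
      (_ : BorelSpace Z) (G : Type) (_ : Group G) (_ : Countable G) (_ : MulAction G Z)
      (e : X ≃ᵐ Z), (∀ g : G, Continuous fun z : Z => g • z) ∧
      (∀ x y, E x y ↔ e y ∈ MulAction.orbit G (e x)) ∧
      ∃ z : Z, Dense (MulAction.orbit G z) := by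
  classical
  obtain ⟨s, hs, hinv, hsE⟩ := Pool.Agent.H139R3.FM.feldman_moore E hE hB hC
  obtain ⟨j, hjm, hji, hjE⟩ := Pool.Agent.TH286.CR.glimm_effros s hs hinv E hE hsE hns
  obtain ⟨hYm, h, hh⟩ := exists_iso s hs hinv E hE hsE (j ∘ cod) (hjm.comp cod_meas)
    (hji.comp cod_inj) (fun p q => (hjE _ _).trans (cod_E0 p q))
  set Y : Set X := {y | ∃ p, E y ((j ∘ cod) p)} with hY
  have hW : StandardBorelSpace (Yᶜ : Set X) := hYm.compl.standardBorel
  have hWn : Nonempty (Yᶜ : Set X) := by
    refine ⟨⟨j fun _ => true, ?_⟩⟩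
    rintro ⟨p, hp⟩
    exact cod_not p ((hjE _ _).1 hp)
  have hsW : ∀ n, ∀ w : (Yᶜ : Set X), s n w.1 ∈ Yᶜ := by
    rintro n w ⟨p, hp⟩
    exact w.2 ⟨p, hE.trans ((hsE _ _).2 ⟨n, rfl⟩) hp⟩
  let sW : ℕ → (Yᶜ : Set X) → (Yᶜ : Set X) := fun n w => ⟨s n w.1, hsW n w⟩
  have hsWm : ∀ n, Measurable (sW n) := fun n => ((hs n).comp measurable_subtype_coe).subtype_mk
  obtain ⟨t, ht1, ht2, ht3⟩ := exists_top sW hsWm
  obtain ⟨Z, tZ, pZ, mZ, bZ, G, i1, i2, i3, e, hc, hR, hd⟩ := @core (Yᶜ : Set X) t ht1 _ ht2 hWn sW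
    ht3 (fun n w => Subtype.ext (hinv n _)) (fun w w' => E w.1 w'.1)
    ⟨fun _ => hE.refl _, fun h => hE.symm h, fun h h' => hE.trans h h'⟩ (by
      intro w w'
      rw [hsE]
      constructor
      · rintro ⟨n, hn⟩
        exact ⟨n, Subtype.ext hn⟩
      · rintro ⟨n, hn⟩
        exact ⟨n, congrArg Subtype.val hn⟩)
  let e1 : (Y ⊕ (Yᶜ : Set X)) ≃ᵐ X := MeasurableEquiv.sumCompl hYm
  let e2 : (Y ⊕ (Yᶜ : Set X)) ≃ᵐ (((ℕ → Bool) × ℕ) ⊕ (Yᶜ : Set X)) :=
    MeasurableEquiv.sumCongr h (MeasurableEquiv.refl _)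
  refine ⟨Z, tZ, pZ, mZ, bZ, G, i1, i2, i3, (e1.symm.trans e2).trans e, hc, fun x y => ?_, hd⟩
  have key : ∀ u v : Y ⊕ (Yᶜ : Set X), E (e1 u) (e1 v) ↔
      Rs (fun w w' : (Yᶜ : Set X) => E w.1 w'.1) (e2 u) (e2 v) := by
    have hl : ∀ u : Y, e1 (Sum.inl u) = u.1 := fun u => rfl
    have hr : ∀ u : (Yᶜ : Set X), e1 (Sum.inr u) = u.1 := fun u => rfl
    have hl2 : ∀ u : Y, e2 (Sum.inl u) = Sum.inl (h u) := fun u => rfl
    have hr2 : ∀ u : (Yᶜ : Set X), e2 (Sum.inr u) = Sum.inr u := fun u => rfl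
    rintro (u | u) (v | v)
    · rw [hl, hl, hl2, hl2]
      show _ ↔ E0 (h u).1 (h v).1
      have h3 : E (j (cod (h u))) (j (cod (h v))) ↔ E0 (cod (h u)) (cod (h v)) := hjE _ _
      rw [← cod_E0, ← h3]
      exact ⟨fun h1 => hE.trans (hE.symm (hh u)) (hE.trans h1 (hh v)),
        fun h1 => hE.trans (hh u) (hE.trans h1 (hE.symm (hh v)))⟩
    · rw [hl, hr, hl2, hr2]
      refine ⟨fun h1 => v.2 ?_, fun h1 => h1.elim⟩
      obtain ⟨p, hp⟩ := u.2
      exact ⟨p, hE.trans (hE.symm h1) hp⟩
    · rw [hl, hr, hl2, hr2]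
      refine ⟨fun h1 => u.2 ?_, fun h1 => h1.elim⟩
      obtain ⟨p, hp⟩ := v.2
      exact ⟨p, hE.trans h1 hp⟩
    · rw [hr, hr, hr2, hr2]
      exact Iff.rfl
  have h1 := key (e1.symm x) (e1.symm y)
  rw [e1.apply_symm_apply, e1.apply_symm_apply] at h1
  rw [h1, hR]
  rfl

end Pool.Agent.R604.RZ
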